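import Pool.Agent.Q123.CB.Paley

set_option autoImplicit false

/-!
# Balanced vertex sets of small diameter in the cube (MP_039f5e_co)

The centre `c` of the cube `[0,1]^n` is in the convex hull of a set of vertices of diameter at most
`r` only if `n ≤ 2 r - 1` for even `r`, and `n ≤ 2 r - 2` or `n = r = 1` for odd `r`. If there is a
Hadamard matrix of order `4 ⌊r / 2⌋`, then for all these `n` there is a balanced set of diameter at
most `r`, so that Q1 holds for this `r` and all `n`.

The upper bound. Write the vertices as vectors of signs, so that the inner product of two of them is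
`n - 2 d`. If `∑ λ_x x = 0`, then `∑ λ_x λ_y ⟨x, y⟩ = 0`; for `n ≥ 2 r` all inner products are
nonnegative, and for odd `r` and `n = 2 r - 1` the inner product of `x` and `y` is at least
`(-1) ^ d(x, y)`, the product of the parities of `x` and `y`.

The construction. Normalise the Hadamard matrix so that its first column consists of ones. For even
`r` take the rows of the `2 r × n` matrix of the columns `1, …, n`. For odd `r` take the rows of the
matrix of the columns `1, 1, 2, …, n - 1`: the distance of two of them is `r - 1` or `r`.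
-/

namespace Pool.Agent.Results.MP_039f5e_co.HadamardOrders

open Pool.Agent.Q123.CB

/-- For all `n ≥ 1`: the centre is in the image of `f_n` exactly if `Bound n r` holds, and exactly if
there is a balanced set of diameter at most `r`. -/
def Settled (r : ℕ) : Prop :=
  ∀ n : ℕ, 1 ≤ n → (CenterInImage n r ↔ Bound n r) ∧
    (CenterInImage n r ↔ ∃ B : Finset (Fin n → Bool), Balanced B ∧ DiamLe B r)

theorem settled_of {r : ℕ} (h : HadOrder (4 * (r / 2))) : Settled r := by
  intro n hn
  refine ⟨⟨bound_of_center hn, fun hb => ?_⟩, ⟨fun hc => ?_, ?_⟩⟩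
  · obtain ⟨B, hB, hd⟩ := balanced_of_hadamard h hn hb
    exact center_of_balanced hB hd
  · exact balanced_of_hadamard h hn (bound_of_center hn hc)
  · rintro ⟨B, hB, hd⟩
    exact center_of_balanced hB hd

/-- The four parts:
* the centre is in the image of `f_n` at scale `r` only if `Bound n r` holds;
* if there is a Hadamard matrix of order `4 ⌊r' / 2⌋` and `r' ≤ r`, then there is a balanced set of
  diameter at most `r` for all `n` with `Bound n r'`;
* if there is a Hadamard matrix of order `4 ⌊r / 2⌋`, then Q1 holds for `r` and all `n`, and the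
  centre is in the image exactly if `Bound n r` holds;
* without a hypothesis, this holds if `r ≤ 1` or `4 ⌊r / 2⌋ = 2 ^ a (q + 1)`, `q` a power of a prime,
  `q ≡ 3 mod 4`. -/
theorem result :
    (∀ n r : ℕ, 1 ≤ n → CenterInImage n r → Bound n r) ∧
    (∀ r r' : ℕ, r' ≤ r → HadOrder (4 * (r' / 2)) → ∀ n : ℕ, 1 ≤ n → Bound n r' →
      ∃ B : Finset (Fin n → Bool), Balanced B ∧ DiamLe B r) ∧
    (∀ r : ℕ, HadOrder (4 * (r / 2)) → Settled r) ∧
    (∀ r : ℕ, (r ≤ 1 ∨ ∃ a p k : ℕ, p.Prime ∧ p ^ k % 4 = 3 ∧
      4 * (r / 2) = 2 ^ a * (p ^ k + 1)) → Settled r) := by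
  refine ⟨fun n r hn => bound_of_center hn, fun r r' hr h n hn hb => ?_, fun r => settled_of,
    fun r hr => ?_⟩
  · obtain ⟨B, hB, hd⟩ := balanced_of_hadamard h hn hb
    exact ⟨B, hB, fun a ha b hb' => (hd a ha b hb').trans hr⟩
  · rcases hr with hr | ⟨a, p, k, hp, hq, h⟩
    · have h0 : 4 * (r / 2) = 0 := by omega
      refine settled_of ?_
      rw [h0]
      refine ⟨0, fun i => i.elim0, ?_⟩
      ext i
      exact i.elim0
    · refine settled_of ?_
      rw [h]
      exact hadOrder_mul (hadOrder_two_pow a) (hadOrder_paley hp hq)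

end Pool.Agent.Results.MP_039f5e_co.HadamardOrders
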